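import Pool.Agent.Helper66.PD.Stmts

/-!
# PD, row HTL: height of the nested Kelly poset
-/

set_option autoImplicit false

namespace Pool.Agent.Helper66.PD

variable {k n : ℕ}

/-- the rank -/
def htl_rho : U k n → ℕ
  | .X _ => 0
  | .Y _ => n + 1
  | .R j a => 1 + a j
  | .L j a => n - a j

theorem htl_lt (u : U k n) : htl_rho u < n + 2 := by
  cases u with
  | X a => exact Nat.succ_pos _
  | Y a => exact Nat.lt_succ_self _
  | R j a =>
    show 1 + (a j : ℕ) < n + 2
    have := (a j).isLt
    omega
  | L j a =>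
    show n - (a j : ℕ) < n + 2
    omega

theorem htl_mono : ∀ u v : U k n, u.Norm → v.Norm → u.le v → u ≠ v → htl_rho u < htl_rho v
  | .X a, .X b, _, _, h1, h2 => by
      have h : a = b := h1
      exact absurd (by rw [h]) h2
  | .X a, .Y b, _, _, _, _ => Nat.succ_pos _
  | .X a, .R j b, _, _, _, _ => by
      show 0 < 1 + (b j : ℕ)
      omega
  | .X a, .L j b, _, _, _, _ => by
      show 0 < n - (b j : ℕ)
      have := (b j).isLt
      omega
  | .Y a, .Y b, _, _, h1, h2 => by
      have h : a = b := h1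
      exact absurd (by rw [h]) h2
  | .R j a, .R j' b, hu, hv, h1, h2 => by
      obtain ⟨rfl, h3, h4⟩ : j = j' ∧ ag j a b ∧ a j ≤ b j := h1
      show 1 + (a j : ℕ) < 1 + (b j : ℕ)
      have h5 : (a j : ℕ) ≤ b j := h4
      rcases Nat.lt_or_ge (a j : ℕ) (b j) with h6 | h6
      · omega
      · exfalso
        apply h2
        apply le_antisymm' _ _ hu hv ⟨rfl, h3, h4⟩
        exact ⟨rfl, fun i hi => (h3 i hi).symm, h6⟩
  | .L j a, .L j' b, hu, hv, h1, h2 => by
      obtain ⟨rfl, h3, h4⟩ : j = j' ∧ ag j a b ∧ b j ≤ a j := h1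
      show n - (a j : ℕ) < n - (b j : ℕ)
      have h5 : (b j : ℕ) ≤ a j := h4
      have h7 := (a j).isLt
      rcases Nat.lt_or_ge (b j : ℕ) (a j) with h6 | h6
      · omega
      · exfalso
        apply h2
        apply le_antisymm' _ _ hu hv ⟨rfl, h3, h4⟩
        exact ⟨rfl, fun i hi => (h3 i hi).symm, h6⟩
  | .R j a, .Y b, _, _, _, _ => by
      show 1 + (a j : ℕ) < n + 1
      have := (a j).isLt
      omega
  | .L j a, .Y b, _, _, _, _ => by
      show n - (a j : ℕ) < n + 1
      omega

theorem st_HTL : ST_HTL := by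
  intro k n s hs
  have h1 : s.card ≤ (Finset.range (n + 2)).card := by
    apply Finset.card_le_card_of_injOn (fun u : Q k n => htl_rho u.1)
    · intro u _
      exact Finset.mem_coe.2 (Finset.mem_range.2 (htl_lt u.1))
    · intro u hu v hv huv
      by_contra hne
      have hne' : u.1 ≠ v.1 := fun h => hne (Subtype.ext h)
      have huv' : htl_rho u.1 = htl_rho v.1 := huv
      rcases hs hu hv hne with h | h
      · have := htl_mono u.1 v.1 u.2 v.2 h hne'
        omega
      · have := htl_mono v.1 u.1 v.2 u.2 h hne'.symm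
        omega
  rwa [Finset.card_range] at h1

end Pool.Agent.Helper66.PD
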